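import Pool.Agent.H37.DEN.TP

/-!
Board den_modules, row BOT: the theorem of Boettcher for formal power series.
-/

set_option autoImplicit false

open MvPolynomial Filter
open Pool.Agent.H18.HIT
open Pool.Agent.H8.TD
open Pool.Agent.H37.DEN

namespace Pool.Agent.H80.DEN

/-- a sequence given by a recursion -/
noncomputable def bseq {k : Type} [Zero k] (Φ : ℕ → (ℕ → k) → k) (n : ℕ) : k :=
  Φ n (fun j => if _h : j < n then bseq Φ j else 0)
termination_by n

theorem bseq_eq {k : Type} [Zero k] (Φ : ℕ → (ℕ → k) → k) (n : ℕ) :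
    bseq Φ n = Φ n (fun j => if j < n then bseq Φ j else 0) := by
  rw [bseq]
  congr 1

section

variable {k : Type} [Field k]

/-- the coefficient of the composition -/
noncomputable def bT (g : ℕ → k) (M : ℕ) (ω : PowerSeries k) : k :=
  ∑ n ∈ Finset.range (M + 1), g n * PowerSeries.coeff M (ω ^ n)

/-- the effect of a change of `ω` of order `n` -/
theorem bT_change {E n : ℕ} (hE : 2 ≤ E) (hn : 2 ≤ n) (g : ℕ → k) (hg : ∀ i < E, g i = 0)
    (a1 a : k) (w ε : PowerSeries k) (hw : PowerSeries.constantCoeff w = 0)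
    (hw1 : PowerSeries.coeff 1 w = a1) (hε : ∀ m < n, PowerSeries.coeff m ε = 0)
    (hεn : PowerSeries.coeff n ε = a) :
    bT g (E + n - 1) (w + ε) = bT g (E + n - 1) w + g E * (E * a1 ^ (E - 1) * a) := by
  obtain ⟨ε', rfl⟩ := PowerSeries.X_pow_dvd_iff.mpr hε
  obtain ⟨u, rfl⟩ := PowerSeries.X_dvd_iff.mpr hw
  have hu : PowerSeries.constantCoeff u = a1 := by
    rw [← hw1, ← PowerSeries.coeff_zero_eq_constantCoeff_apply]
    have := PowerSeries.coeff_X_pow_mul u 1 0
    rw [pow_one, zero_add] at this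
    exact this.symm
  have hε' : PowerSeries.constantCoeff ε' = a := by
    rw [← hεn, ← PowerSeries.coeff_zero_eq_constantCoeff_apply]
    have := PowerSeries.coeff_X_pow_mul ε' n 0
    rw [zero_add] at this
    exact this.symm
  obtain ⟨n', rfl⟩ : ∃ n', n = n' + 2 := ⟨n - 2, by omega⟩
  have hsum : (PowerSeries.X * u + PowerSeries.X ^ (n' + 2) * ε') =
      PowerSeries.X * (u + PowerSeries.X ^ (n' + 1) * ε') := by
    ring
  -- the difference of the powers
  have hpow : ∀ i, 1 ≤ i → (PowerSeries.X * u + PowerSeries.X ^ (n' + 2) * ε') ^ i =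
      (PowerSeries.X * u) ^ i + PowerSeries.X ^ (n' + 1 + i) *
        (ε' * ∑ j ∈ Finset.range i, (u + PowerSeries.X ^ (n' + 1) * ε') ^ j * u ^ (i - 1 - j)) := by
    intro i hi
    have h := geom_sum₂_mul_add (PowerSeries.X ^ (n' + 2) * ε') (PowerSeries.X * u) i
    rw [add_comm (PowerSeries.X * u), ← h, add_comm]
    congr 1
    rw [Finset.sum_mul, Finset.mul_sum, Finset.mul_sum]
    refine Finset.sum_congr rfl fun j hj => ?_
    have hj' : j < i := Finset.mem_range.mp hj
    have e1 : PowerSeries.X ^ (n' + 2) * ε' + PowerSeries.X * u =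
        PowerSeries.X * (u + PowerSeries.X ^ (n' + 1) * ε') := by
      ring
    have e2 : n' + 1 + i = j + (i - 1 - j) + (n' + 2) := by omega
    rw [e1, e2, pow_add, pow_add, mul_pow, mul_pow]
    ring
  have hterm : ∀ i ∈ Finset.range (E + (n' + 2) - 1 + 1),
      g i * PowerSeries.coeff (E + (n' + 2) - 1)
        ((PowerSeries.X * u + PowerSeries.X ^ (n' + 2) * ε') ^ i) =
      g i * PowerSeries.coeff (E + (n' + 2) - 1) ((PowerSeries.X * u) ^ i) +
        if i = E then g E * (E * a1 ^ (E - 1) * a) else 0 := by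
    intro i _
    by_cases hiE : i < E
    · rw [hg i hiE, if_neg (by omega)]
      ring
    · push Not at hiE
      rw [hpow i (by omega), map_add, mul_add]
      congr 1
      by_cases h : i = E
      · subst h
        rw [if_pos rfl]
        congr 1
        have e1 : i + (n' + 2) - 1 = 0 + (n' + 1 + i) := by omega
        rw [e1, PowerSeries.coeff_X_pow_mul, PowerSeries.coeff_zero_eq_constantCoeff_apply,
          map_mul, hε', map_sum]
        have e2 : ∀ j ∈ Finset.range i, PowerSeries.constantCoeff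
            ((u + PowerSeries.X ^ (n' + 1) * ε') ^ j * u ^ (i - 1 - j)) = a1 ^ (i - 1) := by
          intro j hj
          have hj' : j < i := Finset.mem_range.mp hj
          rw [map_mul, map_pow, map_pow, map_add, map_mul, map_pow, hu,
            PowerSeries.constantCoeff_X, zero_pow (Nat.succ_ne_zero _), zero_mul, add_zero,
            ← pow_add]
          congr 1
          omega
        rw [Finset.sum_congr rfl e2, Finset.sum_const, Finset.card_range, nsmul_eq_mul]
        ring
      · rw [if_neg h, PowerSeries.coeff_X_pow_mul', if_neg (by omega), mul_zero]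
  unfold bT
  rw [Finset.sum_congr rfl hterm, Finset.sum_add_distrib, Finset.sum_ite_eq',
    if_pos (Finset.mem_range.mpr (by omega))]

end

/-- the formal power series -/
theorem bot_ps {k : Type} [Field k] [CharZero k] {E : ℕ} (hE : 2 ≤ E) (g : ℕ → k)
    (hg : ∀ i < E, g i = 0) (a1 : k) (ha1 : g E * a1 ^ (E - 1) = 1) :
    ∃ a : ℕ → k, a 0 = 0 ∧ a 1 = a1 ∧ ∀ M : ℕ, bT g M (PowerSeries.mk a) =
      if E ∣ M then a (M / E) else 0 := by
  classical
  have hE0 : (E : k) ≠ 0 := by
    have : E ≠ 0 := by omega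
    exact_mod_cast this
  obtain ⟨Φ, hΦ⟩ : ∃ Φ : ℕ → (ℕ → k) → k, Φ = fun n b => if n = 0 then 0 else
    if n = 1 then a1 else ((if E ∣ E + n - 1 then b ((E + n - 1) / E) else 0) -
      bT g (E + n - 1) (PowerSeries.mk b)) / E := ⟨_, rfl⟩
  have h0 : bseq Φ 0 = 0 := by
    rw [bseq_eq, hΦ]
    simp
  have h1 : bseq Φ 1 = a1 := by
    rw [bseq_eq, hΦ]
    simp
  refine ⟨bseq Φ, h0, h1, ?_⟩
  intro M
  have hX : (PowerSeries.X : PowerSeries k) ∣ PowerSeries.mk (bseq Φ) := by
    rw [PowerSeries.X_dvd_iff, PowerSeries.constantCoeff_mk, h0]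
  rcases lt_trichotomy M E with hM | hM | hM
  · -- below `E`
    have e1 : bT g M (PowerSeries.mk (bseq Φ)) = 0 := by
      unfold bT
      refine Finset.sum_eq_zero fun n hn => ?_
      rw [hg n (by have := Finset.mem_range.mp hn; omega), zero_mul]
    rw [e1]
    by_cases hd : E ∣ M
    · have hM0 : M = 0 := Nat.eq_zero_of_dvd_of_lt hd hM
      rw [if_pos hd, hM0, Nat.zero_div, h0]
    · rw [if_neg hd]
  · -- the index `E`
    subst hM
    rw [if_pos dvd_rfl, Nat.div_self (by omega), h1]
    unfold bT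
    rw [Finset.sum_range_succ, Finset.sum_eq_zero (fun n hn => by
      rw [hg n (Finset.mem_range.mp hn), zero_mul]), zero_add]
    obtain ⟨u, hu⟩ := hX
    have hu0 : PowerSeries.constantCoeff u = a1 := by
      have e := PowerSeries.coeff_X_pow_mul u 1 0
      rw [pow_one, zero_add, ← hu, PowerSeries.coeff_mk, h1,
        PowerSeries.coeff_zero_eq_constantCoeff_apply] at e
      exact e.symm
    have e2 := PowerSeries.coeff_X_pow_mul (u ^ M) M 0
    rw [zero_add, ← mul_pow, ← hu, PowerSeries.coeff_zero_eq_constantCoeff_apply,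
      map_pow PowerSeries.constantCoeff, hu0] at e2
    rw [e2]
    obtain ⟨m, rfl⟩ : ∃ m, M = m + 1 := ⟨M - 1, by omega⟩
    rw [pow_succ, ← mul_assoc]
    rw [Nat.add_sub_cancel] at ha1
    rw [ha1, one_mul]
  · -- above `E`
    obtain ⟨n, hn, rfl⟩ : ∃ n, 2 ≤ n ∧ M = E + n - 1 := ⟨M + 1 - E, by omega, by omega⟩
    set w : PowerSeries k := PowerSeries.mk (fun j => if j < n then bseq Φ j else 0) with hw
    set ε : PowerSeries k := PowerSeries.mk (fun j => if j < n then 0 else bseq Φ j) with hε
    have hs : PowerSeries.mk (bseq Φ) = w + ε := by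
      ext j
      rw [map_add, hw, hε, PowerSeries.coeff_mk, PowerSeries.coeff_mk, PowerSeries.coeff_mk]
      by_cases h : j < n
      · rw [if_pos h, if_pos h, add_zero]
      · rw [if_neg h, if_neg h, zero_add]
    have hc := bT_change hE hn g hg a1 (bseq Φ n) w ε
      (by rw [hw, PowerSeries.constantCoeff_mk, if_pos (by omega), h0])
      (by rw [hw, PowerSeries.coeff_mk, if_pos (by omega), h1])
      (fun m hm => by rw [hε, PowerSeries.coeff_mk, if_pos hm])
      (by rw [hε, PowerSeries.coeff_mk, if_neg (lt_irrefl n)])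
    rw [hs, hc]
    have hrec : bseq Φ n = ((if E ∣ E + n - 1 then
        (fun j => if j < n then bseq Φ j else 0) ((E + n - 1) / E) else 0) -
        bT g (E + n - 1) w) / E := by
      rw [bseq_eq]
      nth_rewrite 1 [hΦ]
      simp only
      rw [if_neg (by omega), if_neg (by omega)]
    have hlt : (E + n - 1) / E < n := by
      rw [Nat.div_lt_iff_lt_mul (by omega)]
      obtain ⟨n', rfl⟩ : ∃ n', n = n' + 2 := ⟨n - 2, by omega⟩
      obtain ⟨E', rfl⟩ : ∃ E', E = E' + 2 := ⟨E - 2, by omega⟩
      have : (n' + 2) * (E' + 2) = n' * E' + 2 * n' + 2 * E' + 4 := by ring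
      rw [this]
      have : 0 ≤ n' * E' := Nat.zero_le _
      omega
    have hfin : g E * (E * a1 ^ (E - 1) * bseq Φ n) = E * bseq Φ n := by
      calc g E * (E * a1 ^ (E - 1) * bseq Φ n) = (g E * a1 ^ (E - 1)) * (E * bseq Φ n) := by ring
        _ = _ := by rw [ha1, one_mul]
    rw [hfin]
    nth_rewrite 1 [hrec]
    rw [mul_div_cancel₀ _ hE0]
    by_cases hd : E ∣ E + n - 1
    · rw [if_pos hd, if_pos hd]
      simp only
      rw [if_pos hlt]
      ring
    · rw [if_neg hd, if_neg hd]
      ring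

theorem coeff_algebraMap_mul {k : Type} [Field k] (c : k) (x : LaurentSeries k) (i : ℤ) :
    (algebraMap k (LaurentSeries k) c * x).coeff i = c * x.coeff i := by
  rw [HahnSeries.algebraMap_apply']
  have e : (algebraMap k (PowerSeries k) c) = PowerSeries.C c := rfl
  rw [e, HahnSeries.ofPowerSeries_C, HahnSeries.C_mul_eq_smul, HahnSeries.coeff_smul, smul_eq_mul]

/-- Row BOT. -/
theorem pf_BOT : T_BOT := by
  classical
  intro k _ _ _ E g hE hg0 hgo
  obtain ⟨gn, hgn⟩ : ∃ gn : ℕ → k, gn = fun n : ℕ => g.coeff (n : ℤ) := ⟨_, rfl⟩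
  have hgE : gn E ≠ 0 := by
    rw [hgn]
    simp only
    rw [← hgo]
    exact fun h => hg0 (HahnSeries.coeff_order_eq_zero.mp h)
  have hglow : ∀ i < E, gn i = 0 := by
    intro i hi
    rw [hgn]
    exact HahnSeries.coeff_eq_zero_of_lt_order (by rw [hgo]; exact_mod_cast hi)
  obtain ⟨a1, ha1⟩ := IsAlgClosed.exists_pow_nat_eq (gn E)⁻¹ (show 0 < E - 1 by omega)
  have ha1' : gn E * a1 ^ (E - 1) = 1 := by
    rw [ha1]
    exact mul_inv_cancel₀ hgE
  have ha10 : a1 ≠ 0 := by
    intro h
    rw [h, zero_pow (by omega), mul_zero] at ha1'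
    exact zero_ne_one ha1'
  obtain ⟨a, h0, h1, hT⟩ := bot_ps hE gn hglow a1 ha1'
  obtain ⟨ω, hω⟩ : ∃ ω : LaurentSeries k, ω = HahnSeries.ofPowerSeries ℤ k (PowerSeries.mk a) :=
    ⟨_, rfl⟩
  have hωc : ∀ i : ℤ, ω.coeff i = if i < 0 then 0 else a i.natAbs := by
    intro i
    rw [hω, PowerSeries.coeff_coe, PowerSeries.coeff_mk]
  have hω1 : ω.coeff 1 = a1 := by
    rw [hωc, if_neg (by omega)]
    exact h1
  have hωo : ω.order = 1 := by
    refine le_antisymm (HahnSeries.order_le_of_coeff_ne_zero (by rw [hω1]; exact ha10)) ?_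
    by_contra hlt
    push Not at hlt
    have hne : ω ≠ 0 := fun h => ha10 (by rw [← hω1, h]; rfl)
    apply hne
    rw [← HahnSeries.coeff_order_eq_zero, hωc]
    by_cases hn : ω.order < 0
    · rw [if_pos hn]
    · have : ω.order = 0 := by omega
      rw [if_neg hn, this]
      exact h0
  refine ⟨ω, hωo, ?_⟩
  intro σ hσ hord
  have hσgo : (σ g).order = E := by rw [hord g hg0, hgo]
  have hneg : ∀ N : ℤ, N < 0 → (σ g).coeff N = 0 := by
    intro N hN
    refine HahnSeries.coeff_eq_zero_of_lt_order ?_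
    rw [hσgo]
    have : (0 : ℤ) ≤ E := Int.natCast_nonneg E
    omega
  have hpos : ∀ M : ℕ, (σ g).coeff (M : ℤ) = bT gn M (PowerSeries.mk a) := by
    intro M
    obtain ⟨p, hp⟩ : ∃ p : LaurentSeries k, p = ∑ n ∈ Finset.range (M + 1),
      algebraMap k (LaurentSeries k) (gn n) * (HahnSeries.single (1 : ℤ) (1 : k)) ^ n := ⟨_, rfl⟩
    have hpc : ∀ i : ℤ, i ≤ M → p.coeff i = g.coeff i := by
      intro i hi
      have e1 : p.coeff i = ∑ n ∈ Finset.range (M + 1), if i = (n : ℤ) then gn n else 0 := by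
        rw [hp, HahnSeries.coeff_sum]
        refine Finset.sum_congr rfl fun n _ => ?_
        rw [HahnSeries.single_pow, coeff_algebraMap_mul, one_pow, nsmul_eq_mul, mul_one,
          HahnSeries.coeff_single]
        by_cases h : i = (n : ℤ)
        · rw [if_pos h, if_pos h, mul_one]
        · rw [if_neg h, if_neg h, mul_zero]
      rw [e1]
      by_cases hi0 : i < 0
      · rw [Finset.sum_eq_zero (fun n _ => if_neg (by omega))]
        symm
        refine HahnSeries.coeff_eq_zero_of_lt_order ?_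
        rw [hgo]
        have : (0 : ℤ) ≤ E := Int.natCast_nonneg E
        omega
      · obtain ⟨j, rfl⟩ : ∃ j : ℕ, i = (j : ℤ) := ⟨i.toNat, by omega⟩
        rw [Finset.sum_eq_single j]
        · rw [if_pos rfl, hgn]
        · intro b _ hb
          exact if_neg (fun h => hb (by exact_mod_cast h.symm))
        · intro h
          exact absurd (Finset.mem_range.mpr (by omega)) h
    have hx : (σ (g - p)).coeff (M : ℤ) = 0 := by
      by_cases hz : g - p = 0
      · rw [hz, map_zero]
        rfl
      · refine HahnSeries.coeff_eq_zero_of_lt_order ?_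
        rw [hord _ hz]
        by_contra hle
        push Not at hle
        apply hz
        rw [← HahnSeries.coeff_order_eq_zero, HahnSeries.coeff_sub, hpc _ hle, sub_self]
    have hsg : σ g = σ p + σ (g - p) := by
      rw [← map_add, add_sub_cancel]
    rw [hsg, HahnSeries.coeff_add, hx, add_zero, hp, map_sum, HahnSeries.coeff_sum]
    unfold bT
    refine Finset.sum_congr rfl fun n _ => ?_
    rw [map_mul, AlgHom.commutes, map_pow σ, hσ, coeff_algebraMap_mul, hω, ← map_pow,
      LaurentSeries.coeff_coe_powerSeries]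
  intro n
  constructor
  · by_cases hn : n < 0
    · rw [hneg _ (by
        have : (0 : ℤ) < E := by exact_mod_cast (by omega : 0 < E)
        exact mul_neg_of_pos_of_neg this hn), hωc, if_pos hn]
    · obtain ⟨j, rfl⟩ : ∃ j : ℕ, n = (j : ℤ) := ⟨n.toNat, by omega⟩
      rw [← Nat.cast_mul, hpos, hT, if_pos (Dvd.intro j rfl),
        Nat.mul_div_cancel_left j (by omega), hωc, if_neg hn, Int.natAbs_natCast]
  · intro hd
    by_cases hn : n < 0
    · exact hneg n hn
    · obtain ⟨j, rfl⟩ : ∃ j : ℕ, n = (j : ℤ) := ⟨n.toNat, by omega⟩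
      rw [hpos, hT, if_neg]
      exact fun h => hd (by exact_mod_cast h)

end Pool.Agent.H80.DEN
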